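import Pool.Agent.Lib.helper14.NullFin

set_option autoImplicit false

namespace Pool.Agent.Results.MP_9624c8_gt.NotUnion

open Pool.Agent.H14NF

theorem result : ¬ ∃ B : ℕ → Set (∀ n : ℕ, ZMod (n + 2)),
    (∀ k, MeasurableSet (B k) ∧ NullFinite (B k)) ∧
      {x : ∀ n : ℕ, ZMod (n + 2) | ∀ n, x n ≠ 0} ⊆ ⋃ k, B k := by
  rintro ⟨B, h, hc⟩
  exact not_cover B (fun k => (h k).1) (fun k => (h k).2) hc

end Pool.Agent.Results.MP_9624c8_gt.NotUnion
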